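import Pool.Agent.H13.MA.Stmts

/-!
ECL: enlarging a condition at one index.
-/

set_option linter.unusedVariables false
set_option synthInstance.maxSize 100000

namespace SW

section
variable {M : Type} [SetStr M] [ZF M]

theorem ecl_tc_mono {x y : M} (h : E y x) : Sub (tc y) (tc x) :=
  tc_min (fun z hz => Trans_tc x y (sub_tc x y h) z hz) (Trans_tc x)

theorem ecl_not_mem_tc (x : M) : ¬ E x (tc x) := by
  refine mem_induction (C := fun x : M => ¬ E x (tc x)) inferInstance ?_ x
  intro x ih hx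
  have h3 : Sub (tc x) (sep (tc x) (fun z => ∃ y, E y x ∧ (z = y ∨ E z (tc y)))) := by
    refine tc_min ?_ ?_
    · intro z hz
      rw [mem_sep]
      exact ⟨sub_tc x z hz, z, hz, Or.inl rfl⟩
    · intro z hz w hw
      rw [mem_sep] at hz ⊢
      obtain ⟨hz, y, hy, h⟩ := hz
      refine ⟨Trans_tc x z hz w hw, y, hy, Or.inr ?_⟩
      rcases h with rfl | h
      · exact sub_tc _ _ hw
      · exact Trans_tc y z h w hw
  have h4 := h3 x hx
  rw [mem_sep] at h4
  obtain ⟨_, y, hy, rfl | h5⟩ := h4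
  · exact not_mem_self _ hy
  · exact ih y hy (Trans_tc y x h5 y hy)

theorem ecl_opair_tc {x a b : M} (h : E (opair a b) (tc x)) : E a (tc x) ∧ E b (tc x) := by
  have h1 : E (upair a b) (tc x) := Trans_tc x _ h _ (by unfold opair; rw [mem_upair]; exact Or.inr rfl)
  exact ⟨Trans_tc x _ h1 _ (by rw [mem_upair]; exact Or.inl rfl),
    Trans_tc x _ h1 _ (by rw [mem_upair]; exact Or.inr rfl)⟩

/-- the indices occurring in a member of a name in the system -/
theorem ecl_idx {w I e' x y q e : M} (hI : Sys w I) (he' : E e' I) (h : Tr e' x y q)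
    (hsub : Sub e' (tc e)) : Sub q (prod (inter I (tc e)) w) := by
  obtain ⟨x', y', q', _, _, _, hq, ht⟩ := hI e' he' _ h
  have e1 := (opair_inj.1 ht).2
  subst e1
  have hq1 : E q (tc e) := (ecl_opair_tc (hsub _ h)).2
  intro z hz
  obtain ⟨a, b, ha, hb, rfl⟩ := mem_prod'.1 (hq z hz)
  rw [mem_prod, mem_inter]
  exact ⟨⟨ha, (ecl_opair_tc (Trans_tc e q hq1 _ hz)).1⟩, hb⟩

end

theorem ma_ecl (hrsa : RSAStmt) : ECLStmt := by
  intro M _ _ w I e s s' x hI he hs hs' hss hx h1 h2
  have hR : RsFacts w := hrsa M w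
  set J : M := inter I (tc e) with hJ
  have hJI : Sub J I := fun z hz => (mem_inter.1 hz).1
  have hJs : Sys w J := by
    intro e' he' t ht
    obtain ⟨he1, he2⟩ := mem_inter.1 he'
    obtain ⟨x', y', q', hx', hy', hq', hqs, rfl⟩ := hI e' he1 t ht
    refine ⟨x', y', q', hx', hy', hq', ?_, rfl⟩
    exact ecl_idx hI he1 ht (Trans_tc e e' he2)
  have heJ : ¬ E e J := fun h => ecl_not_mem_tc e (mem_inter.1 h).2
  have hqJ : ∀ a b q, Tr e a b q → Sub q (prod J w) := fun a b q h =>
    ecl_idx hI he h (sub_tc e)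
  have hrs := hR.rs hJs hs'
  have hama : E (bun (bun s emp) (rs w J s')) (PP w I) := by
    refine hR.ama hJs hJI hs (mem_PP.2 (Cond_emp w I)) hrs ?_ ?_ ?_
    · intro z hz
      rw [mem_rs] at hz ⊢
      exact ⟨hss z hz.1, hz.2⟩
    · intro z hz
      rw [mem_rs] at hz
      exact absurd hz.1 (not_mem_emp z)
    · intro a b c _ h
      exact absurd h (not_mem_emp _)
  obtain ⟨hf, hsub, hc⟩ := mem_PP.1 hama
  refine ⟨ins (opair e x) (bun (bun s emp) (rs w J s')), mem_PP.2 ⟨finF.ins hf, ?_, ?_⟩, ?_, ?_⟩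
  · intro z hz
    rw [mem_ins] at hz
    rcases hz with hz | rfl
    · exact hsub z hz
    · rw [mem_prod]
      exact ⟨he, hx⟩
  · -- members of the enlarged condition at the index e
    have hmem : ∀ y, E (opair e y) (ins (opair e x) (bun (bun s emp) (rs w J s'))) →
        y = x ∨ E (opair e y) s := by
      intro y hy
      rw [mem_ins, mem_bun, mem_bun, mem_rs] at hy
      rcases hy with ((hy | hy) | hy) | hy
      · exact Or.inr hy
      · exact absurd hy (not_mem_emp _)
      · rw [mem_prod] at hy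
        exact absurd hy.2.1 heJ
      · exact Or.inl (opair_inj.1 hy).2
    have hup : ∀ a b q, Sub q s' → Tr e a b q →
        ∃ q, Sub q (ins (opair e x) (bun (bun s emp) (rs w J s'))) ∧ Tr e a b q := by
      intro a b q hq hT
      refine ⟨q, fun z hz => ?_, hT⟩
      rw [mem_ins, mem_bun, mem_rs]
      exact Or.inl (Or.inr ⟨hq z hz, hqJ a b q hT z hz⟩)
    intro e1 a b ha hb
    by_cases he1 : e1 = e
    · subst he1
      rcases hmem a ha with rfl | ha'
      · rcases hmem b hb with rfl | hb'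
        · obtain ⟨q, hq, hT⟩ := h2
          exact hup _ _ q hq hT
        · obtain ⟨⟨q, hq, hT⟩, _⟩ := h1 b hb'
          exact hup _ _ q hq hT
      · rcases hmem b hb with rfl | hb'
        · obtain ⟨_, q, hq, hT⟩ := h1 a ha'
          exact hup _ _ q hq hT
        · obtain ⟨q, hq, hT⟩ := (mem_PP.1 hs).2.2 _ a b ha' hb'
          refine ⟨q, fun z hz => ?_, hT⟩
          rw [mem_ins, mem_bun, mem_bun]
          exact Or.inl (Or.inl (Or.inl (hq z hz)))
    · have hne : ∀ a, E (opair e1 a) (ins (opair e x) (bun (bun s emp) (rs w J s'))) →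
          E (opair e1 a) (bun (bun s emp) (rs w J s')) := by
        intro a ha
        rw [mem_ins] at ha
        rcases ha with ha | ha
        · exact ha
        · exact absurd (opair_inj.1 ha).1 he1
      obtain ⟨q, hq, hT⟩ := hc e1 a b (hne a ha) (hne b hb)
      exact ⟨q, fun z hz => by rw [mem_ins]; exact Or.inl (hq z hz), hT⟩
  · intro z hz
    rw [mem_ins, mem_bun, mem_bun]
    exact Or.inl (Or.inl (Or.inl hz))
  · rw [mem_ins]
    exact Or.inr rfl

end SW
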