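import Pool.Agent.H13.MA.Stmts

/-!
NIC: nice names exist.
-/

set_option linter.unusedVariables false
set_option synthInstance.maxSize 100000

namespace SW

section
variable {M : Type} [SetStr M] [ZF M]

/-- `f` numbers the members of `x` injectively -/
def NicNum (x f : M) : Prop := (∀ y, E y x → ∃ n, E n om ∧ E (opair y n) f) ∧
  ∀ y y' n, E y x → E y' x → E n om → E (opair y n) f → E (opair y' n) f → y = y'

theorem NicNum_df : Cl2 (fun x f : M => NicNum x f) := by unfold NicNum; infer_instance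

instance {n : ℕ} {t s : (Fin n → M) → M} [ht : DfT t] [hs : DfT s] :
    Df (fun v => NicNum (t v) (s v)) := NicNum_df.comp2 ht hs

/-- `a` is an antichain of `P` inside `D`, predense for `D` -/
def NicMax (P D a : M) : Prop := Sub a D ∧ Anti P a ∧ ∀ d, E d D → ∃ q, E q a ∧ Cpt P q d

theorem NicMax_df : Cl3 (fun P D a : M => NicMax P D a) := by unfold NicMax; infer_instance

instance {n : ℕ} {t s u : (Fin n → M) → M} [ht : DfT t] [hs : DfT s] [hu : DfT u] :
    Df (fun v => NicMax (t v) (s v) (u v)) := NicMax_df.comp3 ht hs hu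

end

theorem ma_nic (hacf : ACFStmt) (hmax : MAXAStmt) : NICStmt := by
  intro M _ _ w I D hw hccc hD
  set P : M := PP w I with hP
  obtain ⟨g, hg⟩ := hacf M (pow P)
  obtain ⟨g', hg'⟩ := hacf M (pow (prod P om))
  -- the antichains
  set A : M → M → M := fun x y => app g (sep (pow P)
    (fun a : M => NicMax P (sep P (fun q : M => D x y q)) a)) with hA
  have hAdf : Fn2 (fun x y : M => A x y) := by
    rw [hA]; infer_instance
  have hAs : ∀ x y, NicMax P (sep P (fun q : M => D x y q)) (A x y) := by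
    intro x y
    have h1 : E (A x y) (sep (pow P) (fun a : M => NicMax P (sep P (fun q : M => D x y q)) a)) := by
      refine hg _ (fun z hz => ((mem_sep' inferInstance).1 hz).1) ?_
      obtain ⟨a, ha1, ha2, ha3⟩ := hmax M P (sep P (fun q : M => D x y q))
        (fun z hz => ((mem_sep' inferInstance).1 hz).1)
      refine ⟨a, (mem_sep' inferInstance).2 ⟨mem_pow.2 ha2.1, ha1, ha2, ha3⟩⟩
    exact ((mem_sep' inferInstance).1 h1).2
  have hAP : ∀ x y, Sub (A x y) P := fun x y => (hAs x y).2.1.1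
  -- the numberings
  set N : M → M → M := fun x y => app g' (sep (pow (prod P om))
    (fun f : M => NicNum (A x y) f)) with hN
  have hNdf : Fn2 (fun x y : M => N x y) := by
    rw [hN]; infer_instance
  have hNs : ∀ x y, NicNum (A x y) (N x y) := by
    intro x y
    have h1 : E (N x y) (sep (pow (prod P om)) (fun f : M => NicNum (A x y) f)) := by
      refine hg' _ (fun z hz => ((mem_sep' inferInstance).1 hz).1) ?_
      obtain ⟨f, hf1, hf2⟩ := hccc (A x y) (hAs x y).2.1
      refine ⟨inter f (prod P om), (mem_sep' inferInstance).2 ⟨mem_pow.2 fun z hz => (mem_inter.1 hz).2,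
        fun q hq => ?_, fun q q' n hq hq' hn h h' => ?_⟩⟩
      · obtain ⟨n, hn, h⟩ := hf1 q hq
        exact ⟨n, hn, mem_inter.2 ⟨h, mem_prod.2 ⟨hAP x y q hq, hn⟩⟩⟩
      · exact hf2 q q' n hq hq' hn (mem_inter.1 h).1 (mem_inter.1 h').1
    exact ((mem_sep' inferInstance).1 h1).2
  -- the name
  set e : M := sep (prod (prod w w) P)
    (fun t : M => ∃ x y q : M, t = opair (opair x y) q ∧ E q (A x y)) with he
  have hmem : ∀ x y q, E (opair (opair x y) q) e ↔ E x w ∧ E y w ∧ E q (A x y) := by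
    intro x y q
    rw [he, mem_sep' inferInstance, mem_prod, mem_prod]
    constructor
    · rintro ⟨⟨⟨hx, hy⟩, hq⟩, x', y', q', h1, h2⟩
      rw [opair_inj, opair_inj] at h1
      obtain ⟨⟨rfl, rfl⟩, rfl⟩ := h1
      exact ⟨hx, hy, h2⟩
    · rintro ⟨hx, hy, hq⟩
      exact ⟨⟨⟨hx, hy⟩, hAP x y q hq⟩, x, y, q, rfl, hq⟩
  have hmem' : ∀ t, E t e → ∃ x y q, E x w ∧ E y w ∧ E q (A x y) ∧ t = opair (opair x y) q := by
    intro t ht
    have ht' := ht
    rw [he, mem_sep' inferInstance] at ht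
    obtain ⟨_, x, y, q, rfl, hq⟩ := ht
    obtain ⟨hx, hy, _⟩ := (hmem x y q).1 ht'
    exact ⟨x, y, q, hx, hy, hq, rfl⟩
  refine ⟨e, ?_, ?_, ?_⟩
  · intro t ht
    obtain ⟨x, y, q, hx, hy, hq, rfl⟩ := hmem' t ht
    exact ⟨x, y, q, hx, hy, hAP x y q hq, ((mem_sep' inferInstance).1 ((hAs x y).1 q hq)).2, rfl⟩
  · intro x y q hx hy hq hDq
    obtain ⟨q', hq', hc⟩ := (hAs x y).2.2 q ((mem_sep' inferInstance).2 ⟨hq, hDq⟩)
    exact ⟨q', (hmem x y q').2 ⟨hx, hy, hq'⟩, hc⟩
  · set f : M → M := fun z => the (fun t : M => ∃ x y n q : M, z = opair (opair x y) n ∧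
      t = opair (opair x y) q ∧ E q (A x y) ∧ E (opair q n) (N x y)) with hf
    have hfdf : Fn1 (fun z : M => f z) := by
      rw [hf]; infer_instance
    refine ⟨gr (ZZ w) f, fun t ht => ?_⟩
    obtain ⟨x, y, q, hx, hy, hq, rfl⟩ := hmem' t ht
    obtain ⟨n, hn, hqn⟩ := (hNs x y).1 q hq
    have hz : E (opair (opair x y) n) (ZZ w) := by
      unfold ZZ
      rw [mem_prod, mem_prod]
      exact ⟨⟨hx, hy⟩, hn⟩
    refine ⟨opair (opair x y) n, hz, ?_⟩
    rw [app_gr hfdf hz]
    symm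
    refine the_eq ⟨x, y, n, q, rfl, rfl, hq, hqn⟩ ?_
    rintro t' ⟨x', y', n', q', h1, rfl, h3, h4⟩
    rw [opair_inj, opair_inj] at h1
    obtain ⟨⟨rfl, rfl⟩, rfl⟩ := h1
    rw [(hNs x y).2 q' q n h3 hq hn h4 hqn]

end SW
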