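import Pool.Agent.H13.MA.Stmts

/-!
W0: the first uncountable ordinal exists.
-/

set_option linter.unusedVariables false
set_option synthInstance.maxSize 100000

namespace SW

theorem ma_w0 : W0Stmt := by
  intro M _ _
  obtain ⟨a, ha, hno⟩ := hartF (M := M) om
  have hncb : ¬ Cb a := by
    rintro ⟨f, h1, h2⟩
    apply hno
    have hmem : ∀ y n : M, E (opair y n) (sep (prod a om) (fun z : M => ∃ y n : M,
        z = opair y n ∧ E (opair y n) f ∧ ∀ m : M, E m n → ¬ E (opair y m) f)) ↔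
        E y a ∧ E n om ∧ E (opair y n) f ∧ ∀ m : M, E m n → ¬ E (opair y m) f := by
      intro y n
      rw [mem_sep' inferInstance, mem_prod]
      constructor
      · rintro ⟨⟨hy, hn⟩, y', n', he, h3, h4⟩
        rw [opair_inj] at he
        obtain ⟨rfl, rfl⟩ := he
        exact ⟨hy, hn, h3, h4⟩
      · rintro ⟨hy, hn, h3, h4⟩
        exact ⟨⟨hy, hn⟩, y, n, rfl, h3, h4⟩
    refine ⟨sep (prod a om) (fun z : M => ∃ y n : M,
        z = opair y n ∧ E (opair y n) f ∧ ∀ m : M, E m n → ¬ E (opair y m) f), ?_, ?_, ?_⟩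
    · intro b hb
      obtain ⟨n0, hn0, hbn0⟩ := h1 b hb
      obtain ⟨n, ⟨hn, hbn⟩, hmin⟩ := mem_min (C := fun n : M => E n om ∧ E (opair b n) f)
        inferInstance ⟨n0, hn0, hbn0⟩
      exact ⟨n, hn, (hmem b n).2 ⟨hb, hn, hbn, fun m hm hbm => hmin m hm ⟨Trans_om n hn m hm, hbm⟩⟩⟩
    · intro b y y' hb hy hy'
      obtain ⟨_, hy1, hy2, hy3⟩ := (hmem b y).1 hy
      obtain ⟨_, hy1', hy2', hy3'⟩ := (hmem b y').1 hy'
      rcases (Ord_nat hy1).tri (Ord_nat hy1') with h | h | h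
      · exact absurd hy2 (hy3' y h)
      · exact h
      · exact absurd hy2' (hy3 y' h)
    · intro b b' y hb hb' hy hy'
      obtain ⟨_, hy1, hy2, _⟩ := (hmem b y).1 hy
      obtain ⟨_, _, hy2', _⟩ := (hmem b' y).1 hy'
      exact h2 b b' y hb hb' hy1 hy2 hy2'
  obtain ⟨w, hw, hw1, hw2, _⟩ := ord_min (C := fun x : M => ¬ Cb x) inferInstance ha hncb
  exact ⟨w, hw, hw1, fun c hc => by
    have := hw2 c hc
    exact not_not.1 this⟩

end SW
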